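import Pool.Agent.helper73.NH.Spec

set_option autoImplicit false

namespace Pool.Agent.NH

open Matrix Module Pool.Agent.PR Pool.Agent.SHL

/-- the representation of `P` on `ℚⁿ` -/
noncomputable def SVH_rho {n : ℕ} (P : Subgroup (Pool.Agent.PR.SLZ n)) : P →* Module.End ℚ (Fin n → ℚ) where
  toFun g := Matrix.toLin' (stdM ℚ (g : Pool.Agent.PR.SLZ n))
  map_one' := by
    have h : stdM ℚ ((1 : P) : Pool.Agent.PR.SLZ n) = 1 := by
      unfold stdM
      rw [Subgroup.coe_one, Matrix.SpecialLinearGroup.coe_one]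
      exact Matrix.map_one _ (map_zero _) (map_one _)
    rw [h, Matrix.toLin'_one]
    rfl
  map_mul' a b := by
    have h : stdM ℚ ((a * b : P) : Pool.Agent.PR.SLZ n) =
        stdM ℚ (a : Pool.Agent.PR.SLZ n) * stdM ℚ (b : Pool.Agent.PR.SLZ n) := by
      unfold stdM
      rw [Subgroup.coe_mul, Matrix.SpecialLinearGroup.coe_mul, Matrix.map_mul]
    rw [h, Matrix.toLin'_mul]
    rfl

theorem SVH_int {n : ℕ} (P : Subgroup (Pool.Agent.PR.SLZ n)) (g : P) : IsIntegral ℤ (SVH_rho P g) := by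
  let f : Matrix (Fin n) (Fin n) ℤ →+* Module.End ℚ (Fin n → ℚ) :=
    ((Matrix.toLinAlgEquiv' : Matrix (Fin n) (Fin n) ℚ ≃ₐ[ℚ] _) : Matrix (Fin n) (Fin n) ℚ →+* _).comp
      (RingHom.mapMatrix (Int.castRingHom ℚ))
  have h : SVH_rho P g = f ((g : Pool.Agent.PR.SLZ n) : Matrix (Fin n) (Fin n) ℤ) := rfl
  rw [h]
  exact (Matrix.isIntegral ((g : Pool.Agent.PR.SLZ n) : Matrix (Fin n) (Fin n) ℤ)).map f.toIntAlgHom

theorem SVH_nil {n : ℕ} (P : Subgroup (Pool.Agent.PR.SLZ n)) (g : P) (h : IsNilpotent (SVH_rho P g - 1)) :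
    IsNilpotent (stdM ℚ (g : Pool.Agent.PR.SLZ n) - 1) := by
  obtain ⟨k, hk⟩ := h
  refine ⟨k, ?_⟩
  have h1 : Matrix.toLinAlgEquiv' ((stdM ℚ (g : Pool.Agent.PR.SLZ n) - 1) ^ k) = 0 := by
    rw [map_pow, map_sub, map_one]
    exact hk
  exact (map_eq_zero_iff _ (Matrix.toLinAlgEquiv' : Matrix (Fin n) (Fin n) ℚ ≃ₐ[ℚ] _).injective).1 h1

theorem SVH (hHA : HA_stmt) (hFLG : FLG_stmt) (hUBD : UBD_stmt) : SVH_stmt := by
  intro n hn H P hH hP hsol N hN hHi
  by_contra hfin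
  have : Nonempty (Fin n) := ⟨⟨0, by omega⟩⟩
  have hHi' : Hi N (⊤ : Subgroup P) := by
    have h1 := (hHA (Pool.Agent.PR.SLZ n)).2.2.2.2.2 P P.subtype P.subtype_injective N P
      (le_of_eq P.range_subtype.symm) hHi
    have h2 : P.comap P.subtype = ⊤ := by
      rw [eq_top_iff]
      intro x _
      exact x.2
    rwa [h2] at h1
  obtain ⟨U, a, b, k, L, M, h1, h2, h3, h4, h5, h6, h7, h8, h9, h10, h11⟩ :=
    hFLG (Fin n → ℚ) P hsol (SVH_rho P) (SVH_int P) N hHi'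
  obtain ⟨h12, h13⟩ := hUBD n hn H P hH hP hfin U a h6 fun u hu => SVH_nil P u (h1 u hu)
  have h14 := h12 M h3
  have h15 := h13 L h2
  rw [Module.finrank_fin_fun] at h8
  have h16 : finrank ℚ M < n := by
    have := Submodule.finrank_lt h5
    rwa [Module.finrank_fin_fun] at this
  rcases (show k = 1 ∨ k = 2 ∨ 3 ≤ k by omega) with h | h | h
  · have hM := h10 h
    rw [hM, finrank_bot] at h14
    omega
  · have hLM := h11 h
    rw [hLM] at h15
    omega
  · omega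

end Pool.Agent.NH
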